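import Pool.Agent.MP_ed9623_an.H77.SpecW

/-! Product rules for weak derivatives. -/

open MeasureTheory Filter Topology Set
open scoped ContDiff

namespace Pool.Agent.MP_ed9623_an.H77

open H64

namespace Prd

theorem int3 {O : Set P} {f g φ : P → ℝ} (hf : M2 f) (hg : M2 g) (hφ : Test O φ) :
    Integrable fun x => f x * g x * φ x := by
  refine (hf.int_mul (hg.tmul hφ)).congr (Eventually.of_forall fun x => ?_)
  simp only
  ring

theorem close {f F u : P → ℝ} {δ : ℝ} (hf : M2 f) (hF : M2 F) (hu : M2 u)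
    (h : nm (fun p => F p - f p) ≤ δ) : |(∫ x, F x * u x) - ∫ x, f x * u x| ≤ δ * nm u := by
  rw [← integral_sub (hF.int_mul hu) (hf.int_mul hu)]
  simp only [← sub_mul]
  exact (abs_int_le (hF.sub hf) hu).trans (mul_le_mul_of_nonneg_right h (nm_nonneg _))

theorem prod_wd (h1 : Mol1S) (h2 : Mol2S) (O : Set P) (e : P) (f f' g g' : P → ℝ) (hO : IsOpen O)
    (hf : M2 f) (hf' : M2 f') (hg : M2 g) (hg' : M2 g') (wf : WD O e f f') (wg : WD O e g g') :
    WD O e (fun p => f p * g p) fun p => f' p * g p + f p * g' p := by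
  intro φ hφ
  obtain ⟨ε₁, hε₁, hth⟩ := hφ.2.1.isCompact.exists_thickening_subset_open hO hφ.2.2
  have m1 : M2 fun x => pd e φ x * g x := hg.tmul (hφ.pd e)
  have m2 : M2 fun x => φ x * g x := hg.tmul hφ
  have m3 : M2 fun x => φ x * g' x := hg'.tmul hφ
  set T : ℝ := (∫ x, f x * (pd e φ x * g x)) + (∫ x, f' x * (φ x * g x)) +
    ∫ x, f x * (φ x * g' x) with hT
  set C : ℝ := nm (fun x => pd e φ x * g x) + nm (fun x => φ x * g x) + nm fun x => φ x * g' x
    with hC
  have key : ∀ δ : ℝ, 0 < δ → |T| ≤ δ * C := by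
    intro δ hδ
    obtain ⟨a, ha, hA⟩ := h2.2.2.2 f hf δ hδ
    obtain ⟨b, hb, hB⟩ := h2.2.2.2 f' hf' δ hδ
    have hε : 0 < min ε₁ (min a b) := lt_min hε₁ (lt_min ha hb)
    obtain ⟨k, hk, -⟩ := h2.1 (min ε₁ (min a b)) (Metric.ball 0 (min ε₁ (min a b)))
      Metric.isOpen_ball ⟨0, Metric.mem_ball_self hε⟩ subset_rfl
    have c1 := hA _ k ((min_le_right _ _).trans (min_le_left _ _)) hk
    have c2 := hB _ k ((min_le_right _ _).trans (min_le_right _ _)) hk
    have mF := (h2.2.1 _ k f hk hf).1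
    have mF' := (h2.2.1 _ k f' hk hf').1
    obtain ⟨sF, dF⟩ := (h1 k hk.test).1 f hf
    have e0 := wg _ (hφ.muls sF)
    have e1 : (fun x => g x * pd e (fun x => φ x * mol k f x) x) =
        fun x => mol k f x * (pd e φ x * g x) + mol k f' x * (φ x * g x) := by
      funext x
      rw [pd_mul e (sm_diff hφ.1 x) (sm_diff sF x), dF]
      by_cases hx : x ∈ tsupport φ
      · rw [mol_wd hk.test wf (x := x) fun z hz => hth ?_]
        · ring
        · refine Metric.mem_thickening_iff.mpr ⟨x, hx, ?_⟩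
          have := mem_ball_zero_iff.mp (hk.1.2.2 hz)
          rw [dist_comm, dist_eq_norm]
          exact this.trans_le (min_le_left _ _)
      · rw [image_eq_zero_of_notMem_tsupport hx]
        ring
    have e2 : (fun x => g' x * (φ x * mol k f x)) = fun x => mol k f x * (φ x * g' x) := by
      funext x
      ring
    rw [e1, e2, integral_add (mF.int_mul m1) (mF'.int_mul m2)] at e0
    have b1 := abs_le.mp (close hf mF m1 c1)
    have b2 := abs_le.mp (close hf' mF' m2 c2)
    have b3 := abs_le.mp (close hf mF m3 c1)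
    rw [hT, hC, abs_le]
    constructor <;> linarith [b1.1, b1.2, b2.1, b2.2, b3.1, b3.2]
  have hC0 : 0 ≤ C := add_nonneg (add_nonneg (nm_nonneg _) (nm_nonneg _)) (nm_nonneg _)
  have hT0 : T = 0 := by
    rw [← abs_nonpos_iff]
    refine le_of_forall_pos_le_add fun η hη => ?_
    have h := key (η / (C + 1)) (by positivity)
    have : η / (C + 1) * C ≤ η := by
      rw [div_mul_eq_mul_div, div_le_iff₀ (by positivity)]
      nlinarith
    linarith
  have e3 : (fun x => f x * g x * pd e φ x) = fun x => f x * (pd e φ x * g x) := by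
    funext x
    ring
  have e4 : (fun x => (f' x * g x + f x * g' x) * φ x) =
      fun x => f' x * (φ x * g x) + f x * (φ x * g' x) := by
    funext x
    ring
  rw [e3, e4, integral_add (hf'.int_mul m2) (hf.int_mul m3)]
  linarith

theorem prod_dd (h1 : Mol1S) (h2 : Mol2S) {γ : ℝ → ℝ} (hγ : Gam γ) {f g φ : P → ℝ}
    {d d' : Fin 2 → P → ℝ} (hf : H1 γ f d) (hg : H1 γ g d') (hφ : Test univ φ) (i : Fin 2) :
    ∫ x, f x * g x * dd γ i φ x = -((∫ x, d i x * g x * φ x) + ∫ x, f x * d' i x * φ x) := by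
  have w1 := prod_wd h1 h2 univ (ee 1) f (d 1) g (d' 1) isOpen_univ hf.m (hf.md 1) hg.m (hg.md 1)
    hf.wd1 hg.wd1
  have hi : ∀ i : Fin 2, i = 0 ∨ i = 1 := by decide
  rcases hi i with rfl | rfl
  · have w0 := prod_wd h1 h2 univ (ee 0) f _ g _ isOpen_univ hf.m
      ((hf.md 0).add ((hf.md 1).gmul hγ.deriv)) hg.m ((hg.md 0).add ((hg.md 1).gmul hγ.deriv))
      (hf.wd0 hγ) (hg.wd0 hγ) φ hφ
    have hψ := hφ.smul hγ.deriv.smP
    have w1' := w1 _ hψ
    have e1 : (fun x => f x * g x * pd (ee 1) (fun x => deriv γ x.1 * φ x) x) =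
        fun x => f x * g x * (deriv γ x.1 * pd (ee 1) φ x) := by
      funext x
      rw [pd_mul _ (sm_diff hγ.deriv.smP x) (sm_diff hφ.1 x), hγ.deriv.pd1]
      ring
    have e2 : (fun x => f x * g x * dd γ 0 φ x) =
        fun x => f x * g x * pd (ee 0) φ x - f x * g x * (deriv γ x.1 * pd (ee 1) φ x) := by
      funext x
      rw [dd0]
      ring
    have e3 : (fun x => ((d 0 x + deriv γ x.1 * d 1 x) * g x +
        f x * (d' 0 x + deriv γ x.1 * d' 1 x)) * φ x) =
        fun x => (d 0 x * g x * φ x + f x * d' 0 x * φ x) +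
          (d 1 x * g x * (deriv γ x.1 * φ x) + f x * d' 1 x * (deriv γ x.1 * φ x)) := by
      funext x
      ring
    have e4 : (fun x => (d 1 x * g x + f x * d' 1 x) * (deriv γ x.1 * φ x)) =
        fun x => d 1 x * g x * (deriv γ x.1 * φ x) + f x * d' 1 x * (deriv γ x.1 * φ x) := by
      funext x
      ring
    rw [e1, e4] at w1'
    have j1 : Integrable fun x => d 0 x * g x * φ x + f x * d' 0 x * φ x :=
      (int3 (hf.md 0) hg.m hφ).add (int3 hf.m (hg.md 0) hφ)
    have j2 : Integrable fun x : P =>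
        d 1 x * g x * (deriv γ x.1 * φ x) + f x * d' 1 x * (deriv γ x.1 * φ x) :=
      (int3 (hf.md 1) hg.m hψ).add (int3 hf.m (hg.md 1) hψ)
    rw [e3, integral_add j1 j2,
      integral_add (int3 (hf.md 0) hg.m hφ) (int3 hf.m (hg.md 0) hφ)] at w0
    rw [e2, integral_sub (int3 hf.m hg.m (hφ.pd _))
      (int3 hf.m hg.m ((hφ.pd _).smul hγ.deriv.smP)), w0, w1']
    ring
  · have w := w1 φ hφ
    simp only [add_mul] at w
    rw [integral_add (int3 (hf.md 1) hg.m hφ) (int3 hf.m (hg.md 1) hφ)] at w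
    rw [dd1]
    exact w

end Prd

open Prd in
theorem rowPrd : OfPrd := by
  intro h1 h2
  refine ⟨prod_wd h1 h2, fun γ a w ζ da dw hγ ha hw hζ => ?_⟩
  unfold tl ip
  rw [← Finset.sum_neg_distrib]
  refine Finset.sum_congr rfl fun j _ => ?_
  have i0 := int3 ((ha.h1 0).md 0) (hw j).m (hζ j)
  have i1 := int3 ((ha.h1 1).md 1) (hw j).m (hζ j)
  have dv : (∫ x, da 0 0 x * w j x * ζ j x) + ∫ x, da 1 1 x * w j x * ζ j x = 0 := by
    rw [← integral_add i0 i1, ← integral_zero P ℝ (μ := volume)]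
    refine integral_congr_ae (ha.dv.mono fun x hx => ?_)
    simp only
    linear_combination (w j x * ζ j x) * hx
  simp only [Fin.sum_univ_two, add_mul]
  rw [prod_dd h1 h2 hγ (ha.h1 0) (hw j) (hζ j) 0, prod_dd h1 h2 hγ (ha.h1 1) (hw j) (hζ j) 1,
    integral_add (int3 (ha.h1 0).m ((hw j).md 0) (hζ j)) (int3 (ha.h1 1).m ((hw j).md 1) (hζ j))]
  linarith

end Pool.Agent.MP_ed9623_an.H77
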