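import Pool.Agent.MP_ed9623_an.H77.SpecA
import Pool.Agent.MP_ed9623_an.H64.Mane

/-! From uniqueness to determining functionals. -/

open MeasureTheory Filter Topology Set
open scoped ContDiff InnerProductSpace

namespace Pool.Agent.MP_ed9623_an.H77

theorem af : OfAf := by
  intro habs hfwd hlim hcov hlap H V Y _ _ _ _ _ _ _ _ _ S D hB hι huniq
  obtain ⟨R, hR⟩ := habs S hB
  obtain ⟨l, C, hC, L1, L2, L3⟩ := hlap S D R
  obtain ⟨κ, _, D₀, hD, hc⟩ := hcov S R hι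
  obtain ⟨K, -, hF⟩ := hfwd S R
  obtain ⟨N, Λ, hΛ⟩ := H64.mane_cover (κ := κ × κ)
    (fun p : {U // Bd S R univ U} × {U // Bd S R univ U} => lap S D l p.1.1 0 - lap S D l p.2.1 0)
    (C := 2 * (C + 1) * D₀) (by positivity) fun k => by
      obtain ⟨col, h⟩ := hc k
      refine ⟨fun p i => (col p.1.1 i, col p.2.1 i), fun a b e => ?_⟩
      have key : ∀ U W : {U // Bd S R univ U}, col U.1 = col W.1 →
          ‖lap S D l U.1 0 - lap S D l W.1 0‖ ≤ (C + 1) * (D₀ / 2 ^ k) := fun U W e =>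
        (L1 _ _ (-1) (-1) 0 0 (U.2.mono (subset_univ _)) (W.2.mono (subset_univ _)) (by norm_num)
          (by norm_num)).trans (mul_le_mul (by linarith) (h _ _ U.2 W.2 e) (norm_nonneg _)
            (by linarith))
      have h1 := key a.1 b.1 (funext fun i => congrArg Prod.fst (congrFun e i))
      have h2 := key a.2 b.2 (funext fun i => congrArg Prod.snd (congrFun e i))
      rw [sub_sub_sub_comm]
      refine (norm_sub_le _ _).trans ((add_le_add h1 h2).trans_eq ?_)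
      ring
  refine ⟨N, Λ, fun U W hU hW hobs => ?_⟩
  obtain ⟨T₁, -, hU⟩ := hR U hU
  obtain ⟨T₂, -, hW⟩ := hR W hW
  replace hU := hU.mono (Ioi_subset_Ioi (le_max_left T₁ T₂))
  replace hW := hW.mono (Ioi_subset_Ioi (le_max_right T₁ T₂))
  have h0 := L2 N Λ U W _ hU hW hobs
  by_contra hn
  obtain ⟨ε, hε, hfr⟩ : ∃ ε, 0 < ε ∧ ∃ᶠ t in atTop, ε ≤ ‖S.ι (U t - W t)‖ := by
    rw [Metric.tendsto_nhds] at hn
    obtain ⟨ε, h⟩ := not_forall.1 hn
    obtain ⟨hε, h⟩ := Classical.not_imp.1 h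
    exact ⟨ε, hε, (not_eventually.1 h).mono fun t ht => by simpa using ht⟩
  have : (atTop ⊓ 𝓟 {t | ε ≤ ‖S.ι (U t - W t)‖}).NeBot := frequently_iff_neBot.1 hfr
  obtain ⟨u, hu⟩ := Ultrafilter.exists_le (atTop ⊓ 𝓟 {t | ε ≤ ‖S.ι (U t - W t)‖})
  have hu1 : (u : Filter ℝ) ≤ atTop := hu.trans inf_le_left
  obtain ⟨U', hU', tU⟩ := hlim u hι hu1 hU
  obtain ⟨W', hW', tW⟩ := hlim u hι hu1 hW
  have key : ∀ (Z Z' : ℝ → V), Bd S R (Ioi (max T₁ T₂)) Z → Bd S R univ Z' →
      (∀ s, Tendsto (fun t => Z (t + s)) u (𝓝 (Z' s))) → ∀ τ,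
      Tendsto (fun t => lap S D l Z (t + τ)) u (𝓝 (lap S D l Z' τ)) := by
    intro Z Z' hZ hZ' tZ τ
    refine tendsto_iff_norm_sub_tendsto_zero.2 (squeeze_zero' (g := fun t =>
      C * ‖S.ι (Z (t + τ) - Z' τ)‖) (Eventually.of_forall fun _ => norm_nonneg _) ?_ ?_)
    · filter_upwards [hu1 (eventually_gt_atTop (max T₁ T₂ - τ))] with t ht
      exact L1 _ _ _ (τ - 1) _ _ hZ (hZ'.mono (subset_univ _)) (by linarith [mem_ofPred.1 ht])
        (by linarith)
    · have := ((S.ι.continuous.tendsto _).comp ((tZ τ).sub_const (Z' τ))).norm.const_mul C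
      simpa using this
  have h1 : ∀ τ, lap S D l U' τ = lap S D l W' τ := fun τ => by
    have a := (Λ.continuous.tendsto _).comp ((key U U' hU hU' tU τ).sub (key W W' hW hW' tW τ))
    have b := (h0.comp (tendsto_atTop_add_const_right _ τ tendsto_id)).mono_left hu1
    have := hΛ (⟨_, hU'.shift_univ τ⟩, ⟨_, hW'.shift_univ τ⟩) (by
      simpa only [lap_shift, zero_add] using tendsto_nhds_unique a b)
    simpa only [lap_shift, zero_add, sub_eq_zero] using this
  obtain ⟨t, ht, e⟩ := huniq R U' W' hU' hW' (L3 U' W' hU' hW' h1)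
  have h2 := hF itv_univ hU' hW' t trivial 0 trivial ht
  have h3 : 0 ≤ S.c * ∫ r in t..0, Real.exp (-(K * (r - t))) * ‖U' r - W' r‖ ^ 2 :=
    mul_nonneg S.c0.le (intervalIntegral.integral_nonneg ht fun _ _ => by positivity)
  have h4 : ε ≤ ‖S.ι (U' 0 - W' 0)‖ := by
    refine ge_of_tendsto ((S.ι.continuous.tendsto _).comp ((tU 0).sub (tW 0))).norm ?_
    filter_upwards [(hu.trans inf_le_right) (mem_principal_self _)] with r hr
    simpa using hr
  rw [e, sub_self, map_zero, norm_zero] at h2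
  have h5 : 0 < Real.exp (-(K * (0 - t))) * ‖S.ι (U' 0 - W' 0)‖ ^ 2 :=
    mul_pos (Real.exp_pos _) (pow_pos (hε.trans_le h4) 2)
  linarith

end Pool.Agent.MP_ed9623_an.H77
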